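import Mathlib
import Pool.Prelude.Def_F_1d73fb57

set_option autoImplicit false

namespace Pool.Agent.Helper63.PBD

open Finset

variable {V : Type*} [Fintype V] [DecidableEq V]

theorem pair_count (P : Finset (Finset V)) (hP : P.IsPairwiseBalancedDesign) {x y : V}
    (hxy : x ≠ y) : #{B ∈ P | x ∈ B ∧ y ∈ B} = 1 := by
  obtain ⟨B, ⟨hB1, hB2⟩, hB3⟩ := hP.2 {x, y} (card_pair hxy)
  rw [card_eq_one]
  refine ⟨B, ?_⟩
  ext B'
  rw [mem_filter, mem_singleton]
  constructor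
  · rintro ⟨h1, h2, h3⟩
    refine hB3 B' ⟨h1, ?_⟩
    intro z hz
    simp only [mem_insert, mem_singleton] at hz
    rcases hz with rfl | rfl
    · exact h2
    · exact h3
  · rintro rfl
    exact ⟨hB1, hB2 (by simp), hB2 (by simp)⟩

theorem quad (P : Finset (Finset V)) (hP : P.IsPairwiseBalancedDesign) (u : V → ℝ)
    (hu : ∑ x, u x = 0) :
    ∑ B ∈ P, (∑ x ∈ B, u x) ^ 2 = ∑ x, (u x) ^ 2 * ((#{B ∈ P | x ∈ B} : ℝ) - 1) := by
  classical
  have h1 : ∀ B : Finset V, (∑ x ∈ B, u x) ^ 2 =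
      ∑ x, ∑ y, (if x ∈ B ∧ y ∈ B then (1 : ℝ) else 0) * (u x * u y) := by
    intro B
    have h2 : ∑ x ∈ B, u x = ∑ x, (if x ∈ B then (1 : ℝ) else 0) * u x := by
      simp [ite_mul]
    rw [h2, sq, sum_mul_sum]
    refine sum_congr rfl fun x _ => sum_congr rfl fun y _ => ?_
    by_cases hx : x ∈ B <;> by_cases hy : y ∈ B <;> simp [hx, hy]
  simp only [h1]
  rw [sum_comm]
  have h3 : ∀ x : V, ∑ B ∈ P, ∑ y, (if x ∈ B ∧ y ∈ B then (1 : ℝ) else 0) * (u x * u y) =
      (u x) ^ 2 * ((#{B ∈ P | x ∈ B} : ℝ) - 1) + u x * ∑ y, u y := by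
    intro x
    rw [sum_comm]
    have h4 : ∀ y : V, ∑ B ∈ P, (if x ∈ B ∧ y ∈ B then (1 : ℝ) else 0) * (u x * u y) =
        (if x = y then (u x) ^ 2 * ((#{B ∈ P | x ∈ B} : ℝ) - 1) else 0) + u x * u y := by
      intro y
      rw [← sum_mul]
      have h5 : ∑ B ∈ P, (if x ∈ B ∧ y ∈ B then (1 : ℝ) else 0) =
          ((#{B ∈ P | x ∈ B ∧ y ∈ B} : ℕ) : ℝ) := by
        rw [card_filter]
        push_cast
        rfl
      rw [h5]
      by_cases hxy : x = y
      · subst hxy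
        rw [if_pos rfl]
        simp only [and_self]
        ring
      · rw [if_neg hxy, pair_count P hP hxy]
        push_cast
        ring
    simp only [h4]
    rw [sum_add_distrib, ← mul_sum]
    simp
  simp only [h3, hu, mul_zero, add_zero]

theorem dev_sum (P : Finset (Finset V)) (hP : P.IsPairwiseBalancedDesign) (R : ℕ)
    (hR : ∀ x, #{B ∈ P | x ∈ B} ≤ R) (S : Finset V) (hv : 0 < Fintype.card V) :
    ∑ B ∈ P, ((#(B ∩ S) : ℝ) - ((#S : ℝ) / Fintype.card V) * #B) ^ 2 ≤ R * #S := by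
  classical
  set a : ℝ := (#S : ℝ) / Fintype.card V with ha
  have hvr : (0 : ℝ) < Fintype.card V := by exact_mod_cast hv
  have hav : a * Fintype.card V = #S := by
    rw [ha]
    field_simp
  have ha0 : 0 ≤ a := by
    rw [ha]
    positivity
  set u : V → ℝ := fun x => (if x ∈ S then (1 : ℝ) else 0) - a with hu
  have hsum : ∀ B : Finset V, ∑ x ∈ B, u x = (#(B ∩ S) : ℝ) - a * #B := by
    intro B
    rw [hu]
    simp only
    rw [sum_sub_distrib, sum_const, nsmul_eq_mul, ← sum_filter, sum_const, nsmul_eq_mul,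
      mul_one, filter_mem_eq_inter]
    ring
  have hu0 : ∑ x, u x = 0 := by
    rw [hsum univ, univ_inter, card_univ, hav, sub_self]
  have h1 := quad P hP u hu0
  simp only [hsum] at h1
  rw [h1]
  have h2 : ∑ x, (u x) ^ 2 = #S - a * #S := by
    have h3 : ∀ x, (u x) ^ 2 = (1 - 2 * a) * (if x ∈ S then (1 : ℝ) else 0) + a ^ 2 := by
      intro x
      rw [hu]
      simp only
      by_cases hx : x ∈ S
      · simp only [hx, if_true]
        ring
      · simp only [hx, if_false]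
        ring
    simp only [h3]
    rw [sum_add_distrib, ← mul_sum, sum_const, card_univ, nsmul_eq_mul]
    have h4 : ∑ x : V, (if x ∈ S then (1 : ℝ) else 0) = #S := by simp
    rw [h4]
    linear_combination a * hav
  calc ∑ x, (u x) ^ 2 * ((#{B ∈ P | x ∈ B} : ℝ) - 1) ≤ ∑ x, (u x) ^ 2 * (R : ℝ) := by
        refine sum_le_sum fun x _ => ?_
        apply mul_le_mul_of_nonneg_left _ (sq_nonneg _)
        have : ((#{B ∈ P | x ∈ B} : ℕ) : ℝ) ≤ R := by exact_mod_cast hR x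
        linarith
    _ = (#S - a * #S) * R := by rw [← sum_mul, h2]
    _ ≤ R * #S := by
        have h5 : 0 ≤ a * #S := by positivity
        have h6 : (0 : ℝ) ≤ R := Nat.cast_nonneg R
        nlinarith

/-- The de Bruijn and Erdős inequality for the trace on a set. -/
theorem debruijn_erdos (P : Finset (Finset V)) (hP : P.IsPairwiseBalancedDesign)
    (S : Finset V) (h2 : 2 ≤ #S) (hS : ∀ B ∈ P, ¬ S ⊆ B) :
    #S ≤ #{B ∈ P | 2 ≤ #(B ∩ S)} := by
  classical
  set L : Finset (Finset V) := {B ∈ P | 2 ≤ #(B ∩ S)} with hL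
  letI : Membership S L := ⟨fun l p => (p : V) ∈ (l : Finset V)⟩
  have hmem : ∀ (p : S) (l : L), p ∈ l ↔ (p : V) ∈ (l : Finset V) := fun _ _ => Iff.rfl
  have hline : ∀ p q : S, p ≠ q → ∃ l : L, p ∈ l ∧ q ∈ l := by
    intro p q hpq
    have hpq' : (p : V) ≠ q := fun h => hpq (Subtype.ext h)
    obtain ⟨B, ⟨hB1, hB2⟩, -⟩ := hP.2 {(p : V), (q : V)} (card_pair hpq')
    have hp : (p : V) ∈ B := hB2 (by simp)
    have hq : (q : V) ∈ B := hB2 (by simp)
    have hB : B ∈ L := by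
      rw [hL, mem_filter]
      refine ⟨hB1, ?_⟩
      rw [← card_pair hpq']
      apply card_le_card
      intro z hz
      simp only [mem_insert, mem_singleton] at hz
      rcases hz with rfl | rfl
      · exact mem_inter.2 ⟨hp, p.2⟩
      · exact mem_inter.2 ⟨hq, q.2⟩
    exact ⟨⟨B, hB⟩, hp, hq⟩
  have heq : ∀ (p q : S) (l m : L), p ∈ l → q ∈ l → p ∈ m → q ∈ m → p = q ∨ l = m := by
    intro p q l m h1 h2 h3 h4
    by_cases hpq : p = q
    · exact Or.inl hpq
    · right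
      have hpq' : (p : V) ≠ q := fun h => hpq (Subtype.ext h)
      obtain ⟨B, -, hB3⟩ := hP.2 {(p : V), (q : V)} (card_pair hpq')
      have e1 : (l : Finset V) = B := by
        refine hB3 _ ⟨(mem_filter.1 l.2).1, ?_⟩
        intro z hz
        simp only [mem_insert, mem_singleton] at hz
        rcases hz with rfl | rfl
        · exact h1
        · exact h2
      have e2 : (m : Finset V) = B := by
        refine hB3 _ ⟨(mem_filter.1 m.2).1, ?_⟩
        intro z hz
        simp only [mem_insert, mem_singleton] at hz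
        rcases hz with rfl | rfl
        · exact h3
        · exact h4
      exact Subtype.ext (e1.trans e2.symm)
  have hpoint : ∀ l : L, ∃ p : S, p ∉ l := by
    intro l
    have := hS l (mem_filter.1 l.2).1
    rw [subset_iff] at this
    push Not at this
    obtain ⟨x, hx, hx'⟩ := this
    exact ⟨⟨x, hx⟩, hx'⟩
  have hex : ∀ p : S, ∃ l : L, p ∉ l := by
    intro p
    obtain ⟨q, hq, hqp⟩ := exists_mem_ne (by omega : 1 < #S) (p : V)
    have hpq : p ≠ ⟨q, hq⟩ := fun h => hqp (by rw [h])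
    obtain ⟨l, hl1, hl2⟩ := hline p ⟨q, hq⟩ hpq
    obtain ⟨z, hz⟩ := hpoint l
    have hzq : (⟨q, hq⟩ : S) ≠ z := fun h => hz (h ▸ hl2)
    obtain ⟨m, hm1, hm2⟩ := hline ⟨q, hq⟩ z hzq
    refine ⟨m, fun hpm => ?_⟩
    rcases heq p ⟨q, hq⟩ l m hl1 hl2 hpm hm1 with h | h
    · exact hpq h
    · exact hz (h ▸ hm2)
  letI : Configuration.HasLines S L :=
    { exists_point := hpoint
      exists_line := hex
      eq_or_eq := fun {p q l m} h1 h2 h3 h4 => heq p q l m h1 h2 h3 h4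
      mkLine := fun {p q} h => Classical.choose (hline p q h)
      mkLine_ax := fun {p q} h => Classical.choose_spec (hline p q h) }
  have := Configuration.HasLines.card_le S L
  simpa using this

theorem card_window (n : ℕ) (c d : ℝ) (hd : 0 ≤ d) :
    (#{t ∈ range (n + 1) | |((t : ℕ) : ℝ) - c| ≤ d} : ℝ) ≤ 2 * d + 1 := by
  classical
  by_cases hc : 0 ≤ c + d
  · have hsub : ({t ∈ range (n + 1) | |((t : ℕ) : ℝ) - c| ≤ d} : Finset ℕ) ⊆
        Icc ⌈c - d⌉₊ ⌊c + d⌋₊ := by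
      intro t ht
      rw [mem_filter, abs_le] at ht
      rw [mem_Icc]
      constructor
      · rw [Nat.ceil_le]
        linarith [ht.2.1]
      · rw [Nat.le_floor_iff hc]
        linarith [ht.2.2]
    have h1 := card_le_card hsub
    rw [Nat.card_Icc] at h1
    have h2 : (⌊c + d⌋₊ : ℝ) ≤ c + d := Nat.floor_le hc
    have h3 : c - d ≤ (⌈c - d⌉₊ : ℝ) := Nat.le_ceil _
    have h4 : (#{t ∈ range (n + 1) | |((t : ℕ) : ℝ) - c| ≤ d} : ℝ) ≤
        ((⌊c + d⌋₊ + 1 - ⌈c - d⌉₊ : ℕ) : ℝ) := by exact_mod_cast h1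
    rcases le_total ⌈c - d⌉₊ (⌊c + d⌋₊ + 1) with h5 | h5
    · rw [Nat.cast_sub h5] at h4
      push_cast at h4
      linarith
    · rw [Nat.sub_eq_zero_of_le h5] at h4
      push_cast at h4
      linarith
  · have : ({t ∈ range (n + 1) | |((t : ℕ) : ℝ) - c| ≤ d} : Finset ℕ) = ∅ := by
      rw [filter_eq_empty_iff]
      intro t _ ht
      rw [abs_le] at ht
      have : (0 : ℝ) ≤ t := Nat.cast_nonneg t
      linarith [ht.2]
    rw [this]
    simp
    linarith

/-- The barrier. -/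
theorem barrier (P : Finset (Finset V)) (hP : P.IsPairwiseBalancedDesign) (R : ℕ)
    (hR : ∀ x, #{B ∈ P | x ∈ B} ≤ R) (S : Finset V) (h2 : 2 ≤ #S) (hS : ∀ B ∈ P, ¬ S ⊆ B) :
    ∃ t, 2 ≤ t ∧ (#S : ℝ) ≤ 8 * #(P.image card) * Real.sqrt R * #{B ∈ P | #(B ∩ S) = t} := by
  classical
  have hv : 0 < Fintype.card V := by
    have := card_le_univ S
    omega
  set a : ℝ := (#S : ℝ) / Fintype.card V with ha
  have hdev := dev_sum P hP R hR S hv
  rw [← ha] at hdev
  -- R ≥ 1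
  have hR1 : 1 ≤ R := by
    obtain ⟨x, hx, y, hy, hxy⟩ := one_lt_card.1 (by omega : 1 < #S)
    have h1 := pair_count P hP hxy
    have h3 : #{B ∈ P | x ∈ B ∧ y ∈ B} ≤ #{B ∈ P | x ∈ B} := by
      apply card_le_card
      intro B hB
      rw [mem_filter] at hB ⊢
      exact ⟨hB.1, hB.2.1⟩
    have h4 := hR x
    omega
  have hRr : (1 : ℝ) ≤ R := by exact_mod_cast hR1
  set s : ℝ := Real.sqrt R with hs
  have hs1 : 1 ≤ s := by
    rw [hs]
    exact Real.one_le_sqrt.2 hRr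
  have hs2 : s ^ 2 = R := Real.sq_sqrt (by positivity)
  set L : Finset (Finset V) := {B ∈ P | 2 ≤ #(B ∩ S)} with hL
  have hLS : (#S : ℝ) ≤ #L := by exact_mod_cast debruijn_erdos P hP S h2 hS
  set G : Finset (Finset V) := {B ∈ L | |(#(B ∩ S) : ℝ) - a * #B| ≤ 1.4143 * s} with hG
  set Bad : Finset (Finset V) := {B ∈ L | ¬ |(#(B ∩ S) : ℝ) - a * #B| ≤ 1.4143 * s} with hBad
  have hGB : #G + #Bad = #L := card_filter_add_card_filter_not _
  have hSpos : (0 : ℝ) < #S := by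
    have : 0 < #S := by omega
    exact_mod_cast this
  have hbad : (#Bad : ℝ) * (2 * R) ≤ R * #S := by
    calc (#Bad : ℝ) * (2 * R) = ∑ B ∈ Bad, (2 * (R : ℝ)) := by
          rw [sum_const, nsmul_eq_mul]
      _ ≤ ∑ B ∈ Bad, ((#(B ∩ S) : ℝ) - a * #B) ^ 2 := by
          refine sum_le_sum fun B hB => ?_
          have h3 := (mem_filter.1 hB).2
          push Not at h3
          rw [← sq_abs]
          have h4 : (1.4143 * s) ^ 2 < |(#(B ∩ S) : ℝ) - a * #B| ^ 2 := by
            apply pow_lt_pow_left₀ h3 (by positivity) (by norm_num)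
          nlinarith
      _ ≤ ∑ B ∈ P, ((#(B ∩ S) : ℝ) - a * #B) ^ 2 := by
          apply sum_le_sum_of_subset_of_nonneg
          · exact (filter_subset _ _).trans (filter_subset _ _)
          · intro B _ _
            positivity
      _ ≤ _ := hdev
  have hbad2 : (#Bad : ℝ) ≤ #S / 2 := by
    have hR0 : (0 : ℝ) < R := by linarith
    by_contra h
    push Not at h
    nlinarith
  have hGS : (#S : ℝ) / 2 ≤ #G := by
    have : (#G : ℝ) + #Bad = #L := by exact_mod_cast hGB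
    linarith
  -- pigeonhole
  by_contra hcon
  push Not at hcon
  set K : Finset ℕ := P.image card with hK
  set N : ℕ → ℕ := fun t => #{B ∈ P | #(B ∩ S) = t} with hN
  have hsub : G ⊆ K.biUnion fun k =>
      ({t ∈ range (#S + 1) | |((t : ℕ) : ℝ) - a * k| ≤ 1.4143 * s} : Finset ℕ).biUnion
        fun t => {B ∈ P | #(B ∩ S) = t ∧ 2 ≤ t} := by
    intro B hB
    rw [hG, mem_filter, hL, mem_filter] at hB
    rw [mem_biUnion]
    refine ⟨#B, mem_image_of_mem _ hB.1.1, ?_⟩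
    rw [mem_biUnion]
    refine ⟨#(B ∩ S), ?_, ?_⟩
    · rw [mem_filter, mem_range]
      refine ⟨?_, hB.2⟩
      have := card_le_card (inter_subset_right : B ∩ S ⊆ S)
      omega
    · rw [mem_filter]
      exact ⟨hB.1.1, rfl, hB.1.2⟩
  have hKpos : 0 < #K := by
    obtain ⟨x, hx, y, hy, hxy⟩ := one_lt_card.1 (by omega : 1 < #S)
    obtain ⟨B, ⟨hB1, -⟩, -⟩ := hP.2 {x, y} (card_pair hxy)
    exact card_pos.2 ⟨#B, mem_image_of_mem _ hB1⟩
  have hKr : (0 : ℝ) < #K := by exact_mod_cast hKpos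
  have hNt : ∀ t, ((#{B ∈ P | #(B ∩ S) = t ∧ 2 ≤ t} : ℕ) : ℝ) < #S / (8 * #K * s) := by
    intro t
    by_cases ht : 2 ≤ t
    · simp only [ht, and_true]
      rw [lt_div_iff₀ (by positivity)]
      have := hcon t ht
      calc _ = 8 * #K * s * ((#{B ∈ P | #(B ∩ S) = t} : ℕ) : ℝ) := by ring
        _ < _ := this
    · simp only [ht, and_false, filter_false, card_empty, Nat.cast_zero]
      positivity
  have hcard : (#G : ℝ) ≤ ∑ k ∈ K, ∑ t ∈ ({t ∈ range (#S + 1) |
      |((t : ℕ) : ℝ) - a * k| ≤ 1.4143 * s} : Finset ℕ),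
      ((#{B ∈ P | #(B ∩ S) = t ∧ 2 ≤ t} : ℕ) : ℝ) := by
    have h3 := (card_le_card hsub).trans (card_biUnion_le.trans
      (sum_le_sum fun k _ => card_biUnion_le))
    exact_mod_cast h3
  have hcard2 : ∑ k ∈ K, ∑ t ∈ ({t ∈ range (#S + 1) |
      |((t : ℕ) : ℝ) - a * k| ≤ 1.4143 * s} : Finset ℕ),
      ((#{B ∈ P | #(B ∩ S) = t ∧ 2 ≤ t} : ℕ) : ℝ) ≤
      ∑ k ∈ K, (2 * (1.4143 * s) + 1) * (#S / (8 * #K * s)) := by
    refine sum_le_sum fun k _ => ?_
    have h3 := card_window (#S) (a * k) (1.4143 * s) (by positivity)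
    calc _ ≤ ∑ t ∈ ({t ∈ range (#S + 1) |
          |((t : ℕ) : ℝ) - a * k| ≤ 1.4143 * s} : Finset ℕ), (#S / (8 * #K * s) : ℝ) :=
          sum_le_sum fun t _ => (hNt t).le
      _ = (#{t ∈ range (#S + 1) | |((t : ℕ) : ℝ) - a * k| ≤ 1.4143 * s} : ℝ) *
          (#S / (8 * #K * s)) := by rw [sum_const, nsmul_eq_mul]
      _ ≤ _ := by
          apply mul_le_mul_of_nonneg_right h3 (by positivity)
  rw [sum_const, nsmul_eq_mul] at hcard2
  have h5 : (#K : ℝ) * ((2 * (1.4143 * s) + 1) * (#S / (8 * #K * s))) =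
      (2 * (1.4143 * s) + 1) / s * (#S / 8) := by
    field_simp
  have h6 : (2 * (1.4143 * s) + 1) / s ≤ 3.83 := by
    rw [div_le_iff₀ (by positivity)]
    nlinarith
  have h7 : (2 * (1.4143 * s) + 1) / s * ((#S : ℝ) / 8) ≤ 3.83 * (#S / 8) := by
    apply mul_le_mul_of_nonneg_right h6 (by positivity)
  linarith

end Pool.Agent.Helper63.PBD
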