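import Mathlib

set_option autoImplicit false

namespace Pool.Agent.Helper63.PBD

open Finset

variable {α : Type*} [Fintype α] [DecidableEq α]

/-- Number of subsets meeting a given set in exactly `j` points. -/
theorem card_inter_eq (T : Finset α) (j : ℕ) :
    #{ω : Finset α | #(ω ∩ T) = j} = (#T).choose j * 2 ^ (Fintype.card α - #T) := by
  classical
  have h1 : #((T.powersetCard j) ×ˢ (Tᶜ).powerset) =
      (#T).choose j * 2 ^ (Fintype.card α - #T) := by
    rw [card_product, card_powersetCard, card_powerset, card_compl]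
  rw [← h1]
  refine card_nbij' (fun ω => (ω ∩ T, ω ∩ Tᶜ)) (fun q => q.1 ∪ q.2) ?_ ?_ ?_ ?_
  · intro ω hω
    simp only [coe_filter, mem_univ, true_and, Set.mem_ofPred_eq] at hω
    simp [mem_powersetCard, hω]
  · intro q hq
    simp only [coe_product, Set.mem_prod, mem_coe, mem_powersetCard, mem_powerset] at hq
    obtain ⟨⟨h1, h2⟩, h3⟩ := hq
    simp only [coe_filter, mem_univ, true_and, Set.mem_ofPred_eq]
    have : (q.1 ∪ q.2) ∩ T = q.1 := by
      ext x
      simp only [mem_inter, mem_union]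
      constructor
      · rintro ⟨h | h, hT⟩
        · exact h
        · exact absurd hT (mem_compl.1 (h3 h))
      · intro h
        exact ⟨Or.inl h, h1 h⟩
    rw [this, h2]
  · intro ω hω
    ext x
    simp only [mem_union, mem_inter, mem_compl]
    tauto
  · intro q hq
    simp only [coe_product, Set.mem_prod, mem_coe, mem_powersetCard, mem_powerset] at hq
    obtain ⟨⟨h1, h2⟩, h3⟩ := hq
    ext x
    · simp only [mem_union, mem_inter]
      constructor
      · rintro ⟨h | h, hT⟩
        · exact h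
        · exact absurd hT (mem_compl.1 (h3 h))
      · intro h
        exact ⟨Or.inl h, h1 h⟩
    · simp only [mem_union, mem_inter, mem_compl]
      constructor
      · rintro ⟨h | h, hT⟩
        · exact absurd (h1 h) hT
        · exact h
      · intro h
        exact ⟨Or.inr h, mem_compl.1 (h3 h)⟩

/-- Number of subsets meeting two disjoint `m`-sets equally often. -/
theorem card_equal_inter {U V : Finset α} {m : ℕ} (hU : #U = m) (hV : #V = m)
    (hd : Disjoint U V) :
    #{ω : Finset α | #(ω ∩ U) = #(ω ∩ V)} =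
      (2 * m).choose m * 2 ^ (Fintype.card α - 2 * m) := by
  classical
  have hUV : #(U ∪ V) = 2 * m := by
    rw [card_union_of_disjoint hd, hU, hV]; ring
  have h := card_inter_eq (U ∪ V) m
  rw [hUV] at h
  rw [← h]
  have key : ∀ ω : Finset α, #((symmDiff ω V) ∩ (U ∪ V)) + #(ω ∩ V) = #(ω ∩ U) + m := by
    intro ω
    have e1 : (symmDiff ω V) ∩ (U ∪ V) = (ω ∩ U) ∪ (V \ ω) := by
      ext x
      have hx : x ∈ U → x ∉ V := fun h1 h2 => (disjoint_left.1 hd) h1 h2
      simp only [mem_inter, mem_union, mem_symmDiff, mem_sdiff]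
      tauto
    have e2 : Disjoint (ω ∩ U) (V \ ω) := by
      rw [disjoint_left]
      intro x hx hx'
      simp only [mem_inter, mem_sdiff] at hx hx'
      exact hx'.2 hx.1
    rw [e1, card_union_of_disjoint e2]
    have e3 : #(V \ ω) + #(ω ∩ V) = m := by
      rw [inter_comm, card_sdiff_add_card_inter, hV]
    omega
  refine card_nbij' (fun ω => symmDiff ω V) (fun ω => symmDiff ω V) ?_ ?_ ?_ ?_
  · intro ω hω
    simp only [coe_filter, mem_univ, true_and, Set.mem_ofPred_eq] at hω ⊢
    have := key ω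
    omega
  · intro ω hω
    simp only [coe_filter, mem_univ, true_and, Set.mem_ofPred_eq] at hω ⊢
    have := key (symmDiff ω V)
    rw [symmDiff_symmDiff_cancel_right] at this
    omega
  · intro ω hω
    simp
  · intro ω hω
    simp

/-- Central binomial proportion. -/
noncomputable def b (m : ℕ) : ℝ := (Nat.centralBinom m : ℝ) / 4 ^ m

theorem b_succ (m : ℕ) : b (m + 1) = b m * ((2 * m + 1) / (2 * m + 2)) := by
  have h := Nat.succ_mul_centralBinom_succ m
  have h' : ((m : ℝ) + 1) * (Nat.centralBinom (m + 1) : ℝ) = 2 * (2 * m + 1) * Nat.centralBinom m := by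
    exact_mod_cast h
  unfold b
  rw [pow_succ]
  have h4 : (4 : ℝ) ^ m ≠ 0 := by positivity
  have hm : (m : ℝ) + 1 ≠ 0 := by positivity
  have hm2 : (2 * (m : ℝ) + 2) ≠ 0 := by positivity
  field_simp
  nlinarith [h']

theorem b_pos (m : ℕ) : 0 < b m := by
  unfold b
  have := Nat.centralBinom_pos m
  positivity

theorem b_sq_le (m : ℕ) : (b m) ^ 2 * (2 * m + 1) ≤ 1 := by
  induction m with
  | zero => simp [b]
  | succ m ih =>
    rw [b_succ, mul_pow, div_pow]
    push_cast
    have hm : (0 : ℝ) ≤ m := Nat.cast_nonneg m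
    have h2 : (b m) ^ 2 * ((2 * (m : ℝ) + 1) ^ 2 / (2 * m + 2) ^ 2) * (2 * ((m : ℝ) + 1) + 1) =
        ((b m) ^ 2 * (2 * m + 1)) * ((2 * m + 1) * (2 * m + 3) / (2 * m + 2) ^ 2) := by
      field_simp
      ring
    rw [h2]
    have h3 : ((2 * (m : ℝ) + 1) * (2 * m + 3) / (2 * m + 2) ^ 2) ≤ 1 := by
      rw [div_le_one (by positivity)]
      nlinarith
    have h4 : 0 ≤ ((2 * (m : ℝ) + 1) * (2 * m + 3) / (2 * m + 2) ^ 2) := by positivity
    calc _ ≤ 1 * ((2 * (m : ℝ) + 1) * (2 * m + 3) / (2 * m + 2) ^ 2) :=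
          mul_le_mul_of_nonneg_right ih h4
      _ ≤ 1 := by rw [one_mul]; exact h3

theorem b_antitone (m : ℕ) : b (m + 1) ≤ b m := by
  rw [b_succ]
  have h3 : ((2 * (m : ℝ) + 1) / (2 * m + 2)) ≤ 1 := by
    rw [div_le_one (by positivity)]
    linarith
  calc b m * ((2 * m + 1) / (2 * m + 2)) ≤ b m * 1 :=
        mul_le_mul_of_nonneg_left h3 (b_pos m).le
    _ = b m := mul_one _

theorem b_sub (m : ℕ) : b m - b (m + 1) = b m / (2 * (m + 1)) := by
  rw [b_succ]
  field_simp
  ring

/-- `∑_s C(k,s)^2 = 4^k b k`. -/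
theorem sum_choose_sq (k : ℕ) :
    ∑ s ∈ range (k + 1), ((k.choose s : ℝ)) ^ 2 = 4 ^ k * b k := by
  have h := Nat.sum_range_choose_sq k
  have h' : ∑ s ∈ range (k + 1), ((k.choose s : ℝ)) ^ 2 = (Nat.centralBinom k : ℝ) := by
    rw [Nat.centralBinom_eq_two_mul_choose]
    exact_mod_cast h
  rw [h', b]
  field_simp

/-- maximal binomial proportion for even `k`. -/
theorem choose_le (m s : ℕ) : (((2 * m).choose s : ℝ)) ≤ 2 ^ (2 * m) * b m := by
  have h := Nat.choose_le_centralBinom s m
  unfold b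
  rw [pow_mul]
  norm_num
  rw [mul_div_cancel₀]
  · exact_mod_cast h
  · positivity

end Pool.Agent.Helper63.PBD
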