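import Mathlib
import Pool.Agent.Helper63.PBD.Count

set_option autoImplicit false

namespace Pool.Agent.Helper63.PBD

open Finset

variable {α : Type*} [Fintype α] [DecidableEq α]

theorem card_equal_inter_real {U V : Finset α} {m : ℕ} (hU : #U = m) (hV : #V = m)
    (hd : Disjoint U V) :
    ((#{ω : Finset α | #(ω ∩ U) = #(ω ∩ V)} : ℕ) : ℝ) = 2 ^ (Fintype.card α) * b m := by
  rw [card_equal_inter hU hV hd]
  have h2m : 2 * m ≤ Fintype.card α := by
    have h := card_le_univ (U ∪ V)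
    rw [card_union_of_disjoint hd, hU, hV] at h
    omega
  unfold b
  rw [Nat.centralBinom_eq_two_mul_choose]
  push_cast
  have h3 : (2 : ℝ) ^ (Fintype.card α) = 2 ^ (Fintype.card α - 2 * m) * 4 ^ m := by
    rw [show (4 : ℝ) = 2 ^ 2 by norm_num, ← pow_mul, ← pow_add]
    congr 1
    omega
  rw [h3]
  field_simp

/-- pair bound for two `(r+1)`-sets sharing at most one point. -/
theorem pair_bound {A B : Finset α} {r : ℕ} (hA : #A = r + 1) (hB : #B = r + 1)
    (hAB : #(A ∩ B) ≤ 1) :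
    ((#{ω : Finset α | #(ω ∩ A) = #(ω ∩ B)} : ℕ) : ℝ) ≤ 2 ^ (Fintype.card α) * b r := by
  classical
  have e : ∀ ω : Finset α, (#(ω ∩ A) = #(ω ∩ B)) ↔ (#(ω ∩ (A \ B)) = #(ω ∩ (B \ A))) := by
    intro ω
    have h1 : #(ω ∩ A) = #(ω ∩ (A \ B)) + #(ω ∩ (A ∩ B)) := by
      rw [← card_union_of_disjoint]
      · congr 1
        ext x
        simp only [mem_inter, mem_union, mem_sdiff]
        tauto
      · rw [disjoint_left]
        intro x hx hx'
        simp only [mem_inter, mem_sdiff] at hx hx'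
        tauto
    have h2 : #(ω ∩ B) = #(ω ∩ (B \ A)) + #(ω ∩ (A ∩ B)) := by
      rw [← card_union_of_disjoint]
      · congr 1
        ext x
        simp only [mem_inter, mem_union, mem_sdiff]
        tauto
      · rw [disjoint_left]
        intro x hx hx'
        simp only [mem_inter, mem_sdiff] at hx hx'
        tauto
    omega
  simp only [e]
  have hd : Disjoint (A \ B) (B \ A) := by
    rw [disjoint_left]
    intro x hx hx'
    simp only [mem_sdiff] at hx hx'
    tauto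
  have c1 : #(A \ B) = r + 1 - #(A ∩ B) := by
    have := card_sdiff_add_card_inter A B
    omega
  have c2 : #(B \ A) = r + 1 - #(A ∩ B) := by
    have := card_sdiff_add_card_inter B A
    rw [inter_comm] at this
    omega
  rw [card_equal_inter_real c1 c2 hd]
  apply mul_le_mul_of_nonneg_left _ (by positivity)
  interval_cases h : #(A ∩ B)
  · simpa using b_antitone r
  · simp

variable {ι : Type*} [Fintype ι] [DecidableEq ι]

/-- the number of members of the family met in exactly `s` points. -/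
noncomputable def M (L : ι → Finset α) (ω : Finset α) (s : ℕ) : ℝ :=
  ((#{i : ι | #(ω ∩ L i) = s} : ℕ) : ℝ)

theorem sum_M_sq (L : ι → Finset α) {r : ℕ} (hL : ∀ i, #(L i) = r + 1) :
    ∑ ω : Finset α, ∑ s ∈ range (r + 1 + 1), (M L ω s) ^ 2 =
      ∑ i : ι, ∑ j : ι, ((#{ω : Finset α | #(ω ∩ L i) = #(ω ∩ L j)} : ℕ) : ℝ) := by
  classical
  have h1 : ∀ ω : Finset α, ∑ s ∈ range (r + 1 + 1), (M L ω s) ^ 2 =
      ∑ i : ι, ∑ j : ι, (if #(ω ∩ L i) = #(ω ∩ L j) then (1 : ℝ) else 0) := by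
    intro ω
    have h2 : ∀ s, (M L ω s) ^ 2 = ∑ i : ι, ∑ j : ι,
        ((if #(ω ∩ L i) = s then (1 : ℝ) else 0) * (if #(ω ∩ L j) = s then (1 : ℝ) else 0)) := by
      intro s
      unfold M
      rw [card_filter, sq]
      push_cast
      rw [sum_mul_sum]
    simp only [h2]
    rw [sum_comm]
    refine sum_congr rfl fun i _ => ?_
    rw [sum_comm]
    refine sum_congr rfl fun j _ => ?_
    have hi : #(ω ∩ L i) ∈ range (r + 1 + 1) := by
      rw [mem_range]
      have := card_le_card (inter_subset_right : ω ∩ L i ⊆ L i)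
      rw [hL i] at this
      omega
    rw [sum_eq_single_of_mem _ hi]
    · simp only [if_true, one_mul]
      simp only [eq_comm]
    · intro s _ hs
      rw [if_neg (Ne.symm hs), zero_mul]
  simp only [h1]
  rw [sum_comm]
  refine sum_congr rfl fun i _ => ?_
  rw [sum_comm]
  refine sum_congr rfl fun j _ => ?_
  rw [card_filter]
  push_cast
  rfl

theorem sum_M_sq_le (L : ι → Finset α) {r : ℕ} (hL : ∀ i, #(L i) = r + 1)
    (hLL : ∀ i j, i ≠ j → #(L i ∩ L j) ≤ 1) :
    ∑ ω : Finset α, ∑ s ∈ range (r + 1 + 1), (M L ω s) ^ 2 ≤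
      2 ^ (Fintype.card α) * ((Fintype.card ι : ℝ) + (Fintype.card ι : ℝ) ^ 2 * b r) := by
  classical
  rw [sum_M_sq L hL]
  have h1 : ∀ i j : ι, ((#{ω : Finset α | #(ω ∩ L i) = #(ω ∩ L j)} : ℕ) : ℝ) ≤
      2 ^ (Fintype.card α) * ((if i = j then (1 : ℝ) else 0) + b r) := by
    intro i j
    by_cases hij : i = j
    · subst hij
      rw [if_pos rfl]
      have : ((#{ω : Finset α | #(ω ∩ L i) = #(ω ∩ L i)} : ℕ) : ℝ) = 2 ^ (Fintype.card α) := by
        simp
      rw [this]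
      have := b_pos r
      nlinarith [show (0 : ℝ) < 2 ^ (Fintype.card α) by positivity]
    · rw [if_neg hij, zero_add]
      exact pair_bound (hL i) (hL j) (hLL i j hij)
  calc ∑ i : ι, ∑ j : ι, ((#{ω : Finset α | #(ω ∩ L i) = #(ω ∩ L j)} : ℕ) : ℝ)
      ≤ ∑ i : ι, ∑ j : ι, 2 ^ (Fintype.card α) * ((if i = j then (1 : ℝ) else 0) + b r) :=
        sum_le_sum fun i _ => sum_le_sum fun j _ => h1 i j
    _ = _ := by
        simp only [mul_add, sum_add_distrib, ← mul_sum]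
        simp [sum_ite_eq, card_univ]
        ring

theorem sum_M (L : ι → Finset α) {r : ℕ} (hL : ∀ i, #(L i) = r + 1) (s : ℕ) :
    ∑ ω : Finset α, M L ω s =
      2 ^ (Fintype.card α) * ((Fintype.card ι : ℝ) * ((r + 1).choose s / 2 ^ (r + 1))) := by
  classical
  have h1 : ∀ ω, M L ω s = ∑ i : ι, (if #(ω ∩ L i) = s then (1 : ℝ) else 0) := by
    intro ω
    unfold M
    rw [card_filter]
    push_cast
    rfl
  simp only [h1]
  rw [sum_comm]
  have h2 : ∀ i : ι, ∑ ω : Finset α, (if #(ω ∩ L i) = s then (1 : ℝ) else 0) =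
      2 ^ (Fintype.card α) * ((r + 1).choose s / 2 ^ (r + 1)) := by
    intro i
    have h3 := card_inter_eq (L i) s
    rw [card_filter] at h3
    have h4 : ∑ ω : Finset α, (if #(ω ∩ L i) = s then (1 : ℝ) else 0) =
        (((#(L i)).choose s * 2 ^ (Fintype.card α - #(L i)) : ℕ) : ℝ) := by
      rw [← h3]
      push_cast
      rfl
    rw [h4, hL i]
    have h5 : r + 1 ≤ Fintype.card α := by
      have := card_le_univ (L i)
      rw [hL i] at this
      exact this
    push_cast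
    have h6 : (2 : ℝ) ^ (Fintype.card α) = 2 ^ (Fintype.card α - (r + 1)) * 2 ^ (r + 1) := by
      rw [← pow_add]
      congr 1
      omega
    rw [h6]
    field_simp
  simp only [h2]
  rw [sum_const, card_univ, nsmul_eq_mul]
  ring

theorem sum_dev_le (L : ι → Finset α) {r : ℕ} (hL : ∀ i, #(L i) = r + 1)
    (hLL : ∀ i j, i ≠ j → #(L i ∩ L j) ≤ 1) :
    ∑ ω : Finset α, ∑ s ∈ range (r + 1 + 1),
      (M L ω s - (Fintype.card ι : ℝ) * ((r + 1).choose s / 2 ^ (r + 1))) ^ 2 ≤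
      2 ^ (Fintype.card α) * ((Fintype.card ι : ℝ) +
        (Fintype.card ι : ℝ) ^ 2 * (b r / (2 * (r + 1)))) := by
  classical
  set P : ℝ := (Fintype.card ι : ℝ) with hP
  set μ : ℕ → ℝ := fun s => P * ((r + 1).choose s / 2 ^ (r + 1)) with hμ
  have h1 : ∀ ω : Finset α, ∀ s, (M L ω s - P * ((r + 1).choose s / 2 ^ (r + 1))) ^ 2 =
      (M L ω s) ^ 2 - 2 * μ s * M L ω s + (μ s) ^ 2 := by
    intro ω s
    rw [hμ]
    ring
  simp only [h1, sum_add_distrib, sum_sub_distrib]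
  have h2 : ∑ ω : Finset α, ∑ s ∈ range (r + 1 + 1), 2 * μ s * M L ω s =
      2 * 2 ^ (Fintype.card α) * ∑ s ∈ range (r + 1 + 1), (μ s) ^ 2 := by
    rw [sum_comm, mul_sum]
    refine sum_congr rfl fun s _ => ?_
    rw [← mul_sum, sum_M L hL s]
    rw [hμ]
    ring
  have h3 : ∑ ω : Finset α, ∑ s ∈ range (r + 1 + 1), (μ s) ^ 2 =
      2 ^ (Fintype.card α) * ∑ s ∈ range (r + 1 + 1), (μ s) ^ 2 := by
    rw [sum_const, card_univ, Fintype.card_finset, nsmul_eq_mul]
    push_cast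
    rfl
  have h4 : ∑ s ∈ range (r + 1 + 1), (μ s) ^ 2 = P ^ 2 * b (r + 1) := by
    have h5 := sum_choose_sq (r + 1)
    have h6 : ∀ s, (μ s) ^ 2 = P ^ 2 / 4 ^ (r + 1) * ((r + 1).choose s : ℝ) ^ 2 := by
      intro s
      rw [hμ]
      simp only
      rw [mul_pow, div_pow, ← pow_mul, mul_comm (r + 1) 2, pow_mul]
      norm_num
      ring
    simp only [h6]
    rw [← mul_sum, h5]
    field_simp
  have h7 := sum_M_sq_le L hL hLL
  have h8 := b_sub r
  rw [h2, h3, h4, ← h8]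
  rw [← hP] at h7
  nlinarith [h7]

theorem sum_size_dev :
    ∑ ω : Finset α, ((#ω : ℝ) - (Fintype.card α : ℝ) / 2) ^ 2 =
      2 ^ (Fintype.card α) * ((Fintype.card α : ℝ) / 4) := by
  classical
  set N := Fintype.card α with hN
  have h1 : ∑ ω : Finset α, ((#ω : ℝ) - (N : ℝ) / 2) ^ 2 =
      ∑ ν ∈ range (N + 1), ((N.choose ν : ℝ)) * ((ν : ℝ) - N / 2) ^ 2 := by
    have h := sum_powerset_apply_card (fun ν : ℕ => ((ν : ℝ) - (N : ℝ) / 2) ^ 2)
      (x := (univ : Finset α))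
    rw [powerset_univ, card_univ, ← hN] at h
    rw [h]
    simp [nsmul_eq_mul]
  rw [h1]
  have h2 := bernsteinPolynomial.variance (R := ℝ) N
  have h3 := congrArg (Polynomial.eval (1 / 2 : ℝ)) h2
  rw [Polynomial.eval_finsetSum] at h3
  simp only [bernsteinPolynomial, Polynomial.eval_mul, Polynomial.eval_pow, Polynomial.eval_sub,
    Polynomial.eval_one, Polynomial.eval_natCast, Polynomial.eval_X,
    nsmul_eq_mul] at h3
  have h4 : ∀ ν ∈ range (N + 1), ((N : ℝ) * (1 / 2) - ν) ^ 2 *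
      ((N.choose ν : ℝ) * (1 / 2) ^ ν * (1 - 1 / 2) ^ (N - ν)) =
      ((1 / 2) ^ N) * (((N.choose ν : ℝ)) * ((ν : ℝ) - N / 2) ^ 2) := by
    intro ν hν
    have hν' : ν ≤ N := by
      have := mem_range.1 hν
      omega
    have h5 : ((1 : ℝ) / 2) ^ N = (1 / 2) ^ ν * (1 / 2) ^ (N - ν) := by
      rw [← pow_add]
      congr 1
      omega
    rw [h5]
    norm_num
    ring
  rw [sum_congr rfl h4, ← mul_sum] at h3
  have h6 : (2 : ℝ) ^ N * (1 / 2) ^ N = 1 := by
    rw [← mul_pow]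
    norm_num
  calc ∑ ν ∈ range (N + 1), ((N.choose ν : ℝ)) * ((ν : ℝ) - N / 2) ^ 2
      = (2 : ℝ) ^ N * ((1 / 2) ^ N * ∑ ν ∈ range (N + 1), ((N.choose ν : ℝ)) * ((ν : ℝ) - N / 2) ^ 2) := by
        rw [← mul_assoc, h6, one_mul]
    _ = _ := by
        rw [h3]
        ring

/-- The existence statement. -/
theorem exists_good (L : ι → Finset α) {r : ℕ} (hL : ∀ i, #(L i) = r + 1)
    (hLL : ∀ i j, i ≠ j → #(L i ∩ L j) ≤ 1) (hι : 0 < Fintype.card ι) (hα : 0 < Fintype.card α) :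
    ∃ ω : Finset α, ((#ω : ℝ) - (Fintype.card α : ℝ) / 2) ^ 2 ≤ (Fintype.card α : ℝ) / 2 ∧
      ∀ s, M L ω s ≤ (Fintype.card ι : ℝ) * ((r + 1).choose s / 2 ^ (r + 1)) +
        Real.sqrt (2 * ((Fintype.card ι : ℝ) +
        (Fintype.card ι : ℝ) ^ 2 * (b r / (2 * (r + 1))))) := by
  classical
  set V1 : ℝ := (Fintype.card ι : ℝ) + (Fintype.card ι : ℝ) ^ 2 * (b r / (2 * (r + 1))) with hV1
  have hιr : (0 : ℝ) < (Fintype.card ι : ℝ) := by exact_mod_cast hι
  have hαr : (0 : ℝ) < (Fintype.card α : ℝ) := by exact_mod_cast hα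
  have hb := b_pos r
  have hV1pos : 0 < V1 := by
    rw [hV1]
    positivity
  set F1 : Finset α → ℝ := fun ω => ∑ s ∈ range (r + 1 + 1),
      (M L ω s - (Fintype.card ι : ℝ) * ((r + 1).choose s / 2 ^ (r + 1))) ^ 2 with hF1
  set F2 : Finset α → ℝ := fun ω => ((#ω : ℝ) - (Fintype.card α : ℝ) / 2) ^ 2 with hF2
  have hs1 : ∑ ω, F1 ω ≤ 2 ^ (Fintype.card α) * V1 := sum_dev_le L hL hLL
  have hs2 : ∑ ω, F2 ω = 2 ^ (Fintype.card α) * ((Fintype.card α : ℝ) / 4) := sum_size_dev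
  have hex : ∃ ω ∈ (univ : Finset (Finset α)),
      F1 ω / V1 + F2 ω / ((Fintype.card α : ℝ) / 4) ≤ 2 := by
    apply exists_le_of_sum_le ⟨∅, mem_univ _⟩
    rw [sum_add_distrib, ← sum_div, ← sum_div, hs2, sum_const, card_univ, Fintype.card_finset,
      nsmul_eq_mul]
    push_cast
    rw [mul_div_cancel_right₀ _ (by positivity)]
    have : (∑ ω, F1 ω) / V1 ≤ 2 ^ (Fintype.card α) := by
      rw [div_le_iff₀ hV1pos]
      exact hs1
    linarith
  obtain ⟨ω, -, hω⟩ := hex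
  have hF1nn : 0 ≤ F1 ω := sum_nonneg fun s _ => sq_nonneg _
  have hF2nn : 0 ≤ F2 ω := sq_nonneg _
  refine ⟨ω, ?_, ?_⟩
  · have h1 : F2 ω / ((Fintype.card α : ℝ) / 4) ≤ 2 := by
      have : 0 ≤ F1 ω / V1 := by positivity
      linarith
    rw [div_le_iff₀ (by positivity)] at h1
    calc ((#ω : ℝ) - (Fintype.card α : ℝ) / 2) ^ 2 = F2 ω := rfl
      _ ≤ _ := h1
      _ = _ := by ring
  · intro s
    have h1 : F1 ω / V1 ≤ 2 := by
      have : 0 ≤ F2 ω / ((Fintype.card α : ℝ) / 4) := by positivity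
      linarith
    rw [div_le_iff₀ hV1pos] at h1
    by_cases hs : s ∈ range (r + 1 + 1)
    · have h2 : (M L ω s - (Fintype.card ι : ℝ) * ((r + 1).choose s / 2 ^ (r + 1))) ^ 2 ≤ F1 ω :=
        single_le_sum (f := fun s => (M L ω s - (Fintype.card ι : ℝ) *
          ((r + 1).choose s / 2 ^ (r + 1))) ^ 2) (fun s _ => sq_nonneg _) hs
      have h3 := Real.le_sqrt_of_sq_le (h2.trans h1)
      linarith
    · have h0 : M L ω s = 0 := by
        unfold M
        rw [Nat.cast_eq_zero, card_eq_zero, filter_eq_empty_iff]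
        intro i _ hi
        apply hs
        rw [mem_range, ← hi]
        have := card_le_card (inter_subset_right : ω ∩ L i ⊆ L i)
        rw [hL i] at this
        omega
      rw [h0]
      positivity

end Pool.Agent.Helper63.PBD
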