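import Mathlib
import Pool.Prelude.Def_F_1d73fb57
import Pool.Agent.Helper63.PBD.Exist

set_option autoImplicit false

namespace Pool.Agent.Helper63.PBD

open Finset

/-- Restricting a linear space to a point set and transporting to `Fin n`. -/
theorem exists_pbd {X J : Type*} [DecidableEq X] [Fintype J]
    (l : J → Finset X) (h1 : ∀ x y, x ≠ y → ∃ j, x ∈ l j ∧ y ∈ l j)
    (h2 : ∀ x y j j', x ≠ y → x ∈ l j → y ∈ l j → x ∈ l j' → y ∈ l j' → j = j')
    (S : Finset X) (n : ℕ) (hS : #S = n) :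
    ∃ H : Finset (Finset (Fin n)), H.IsPairwiseBalancedDesign ∧
      (∀ e ∈ H, ∃ j, #e = #(l j ∩ S)) ∧
      ∀ t, #{e ∈ H | #e = t} ≤ #{j : J | #(l j ∩ S) = t} := by
  classical
  set e : S ≃ Fin n := S.equivFinOfCardEq hS with he
  set B : J → Finset (Fin n) := fun j => univ.filter fun i => ((e.symm i : S) : X) ∈ l j with hB
  have hcard : ∀ j, #(B j) = #(l j ∩ S) := by
    intro j
    refine card_bij (fun i _ => ((e.symm i : S) : X)) ?_ ?_ ?_
    · intro i hi
      rw [hB, mem_filter] at hi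
      exact mem_inter.2 ⟨hi.2, (e.symm i).2⟩
    · intro i _ i' _ h
      exact e.symm.injective (Subtype.ext h)
    · intro x hx
      rw [mem_inter] at hx
      refine ⟨e ⟨x, hx.2⟩, ?_, ?_⟩
      · rw [hB, mem_filter]
        refine ⟨mem_univ _, ?_⟩
        rw [Equiv.symm_apply_apply]
        exact hx.1
      · rw [Equiv.symm_apply_apply]
  refine ⟨(univ.image B).filter fun s => 2 ≤ #s, ⟨?_, ?_⟩, ?_, ?_⟩
  · intro s hs
    exact (mem_filter.1 hs).2
  · intro s hs
    obtain ⟨x, y, hxy, rfl⟩ := card_eq_two.1 hs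
    have hne : ((e.symm x : S) : X) ≠ ((e.symm y : S) : X) := by
      intro h
      exact hxy (e.symm.injective (Subtype.ext h))
    obtain ⟨j, hj1, hj2⟩ := h1 _ _ hne
    have hmem : ∀ z j, z ∈ B j ↔ ((e.symm z : S) : X) ∈ l j := by
      intro z j
      rw [hB, mem_filter]
      simp
    refine ⟨B j, ⟨mem_filter.2 ⟨mem_image_of_mem _ (mem_univ _), ?_⟩, ?_⟩, ?_⟩
    · rw [← hs]
      apply card_le_card
      intro z hz
      simp only [mem_insert, mem_singleton] at hz
      rcases hz with rfl | rfl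
      · exact (hmem _ _).2 hj1
      · exact (hmem _ _).2 hj2
    · intro z hz
      simp only [mem_insert, mem_singleton] at hz
      rcases hz with rfl | rfl
      · exact (hmem _ _).2 hj1
      · exact (hmem _ _).2 hj2
    · rintro s' ⟨hs', hsub⟩
      obtain ⟨j', -, rfl⟩ := mem_image.1 (mem_filter.1 hs').1
      have hx' := (hmem x j').1 (hsub (by simp))
      have hy' := (hmem y j').1 (hsub (by simp))
      rw [h2 _ _ j j' hne hj1 hj2 hx' hy']
  · intro s hs
    obtain ⟨j, -, rfl⟩ := mem_image.1 (mem_filter.1 hs).1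
    exact ⟨j, hcard j⟩
  · intro t
    have hsub : ({s ∈ (univ.image B).filter fun s => 2 ≤ #s | #s = t} : Finset (Finset (Fin n))) ⊆
        ({j : J | #(l j ∩ S) = t} : Finset J).image B := by
      intro s hs
      obtain ⟨hs1, hs2⟩ := mem_filter.1 hs
      obtain ⟨j, -, rfl⟩ := mem_image.1 (mem_filter.1 hs1).1
      refine mem_image_of_mem _ (mem_filter.2 ⟨mem_univ _, ?_⟩)
      rw [← hcard j]
      exact hs2
    exact (card_le_card hsub).trans card_image_le

section plane

variable (p : ℕ) [hp : Fact p.Prime]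

/-- Lines of the affine plane over `ZMod p`. -/
def line : (ZMod p × ZMod p) ⊕ ZMod p → Finset (ZMod p × ZMod p)
  | Sum.inl ab => univ.filter fun q => q.2 = ab.1 * q.1 + ab.2
  | Sum.inr c => univ.filter fun q => q.1 = c

theorem mem_line_inl (a b : ZMod p) (q : ZMod p × ZMod p) :
    q ∈ line p (Sum.inl (a, b)) ↔ q.2 = a * q.1 + b := by
  simp [line]

theorem mem_line_inr (c : ZMod p) (q : ZMod p × ZMod p) :
    q ∈ line p (Sum.inr c) ↔ q.1 = c := by
  simp [line]

theorem line_exists (x y : ZMod p × ZMod p) (hxy : x ≠ y) :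
    ∃ j, x ∈ line p j ∧ y ∈ line p j := by
  by_cases h : x.1 = y.1
  · exact ⟨Sum.inr x.1, (mem_line_inr p _ _).2 rfl, (mem_line_inr p _ _).2 h.symm⟩
  · have h' : x.1 - y.1 ≠ 0 := sub_ne_zero.2 h
    refine ⟨Sum.inl ((x.2 - y.2) / (x.1 - y.1), x.2 - (x.2 - y.2) / (x.1 - y.1) * x.1), ?_, ?_⟩
    · rw [mem_line_inl]
      ring
    · rw [mem_line_inl]
      field_simp
      ring

theorem line_unique (x y : ZMod p × ZMod p) (j j' : (ZMod p × ZMod p) ⊕ ZMod p) (hxy : x ≠ y)
    (h1 : x ∈ line p j) (h2 : y ∈ line p j) (h3 : x ∈ line p j') (h4 : y ∈ line p j') :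
    j = j' := by
  have hne : x.1 = y.1 → x.2 ≠ y.2 := fun h h' => hxy (Prod.ext h h')
  rcases j with ⟨a, b⟩ | c <;> rcases j' with ⟨a', b'⟩ | c'
  · rw [mem_line_inl] at h1 h2 h3 h4
    have h5 : x.1 ≠ y.1 := by
      intro h
      apply hne h
      rw [h1, h2, h]
    have h6 : (a - a') * (x.1 - y.1) = 0 := by
      have e1 : a * x.1 + b = a' * x.1 + b' := by rw [← h1, ← h3]
      have e2 : a * y.1 + b = a' * y.1 + b' := by rw [← h2, ← h4]
      linear_combination e1 - e2
    have h7 : a = a' := by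
      rcases mul_eq_zero.1 h6 with h | h
      · exact sub_eq_zero.1 h
      · exact absurd (sub_eq_zero.1 h) h5
    have h8 : b = b' := by
      have e1 : a * x.1 + b = a' * x.1 + b' := by rw [← h1, ← h3]
      rw [h7] at e1
      exact add_left_cancel e1
    rw [h7, h8]
  · rw [mem_line_inl] at h1 h2
    rw [mem_line_inr] at h3 h4
    exfalso
    apply hne (h3.trans h4.symm)
    rw [h1, h2, h3, h4]
  · rw [mem_line_inl] at h3 h4
    rw [mem_line_inr] at h1 h2
    exfalso
    apply hne (h1.trans h2.symm)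
    rw [h3, h4, h1, h2]
  · rw [mem_line_inr] at h1 h3
    rw [← h1, ← h3]

theorem card_line (j : (ZMod p × ZMod p) ⊕ ZMod p) : #(line p j) ≤ p := by
  classical
  rcases j with ⟨a, b⟩ | c
  · have : line p (Sum.inl (a, b)) ⊆ (univ : Finset (ZMod p)).image fun x => (x, a * x + b) := by
      intro q hq
      rw [mem_line_inl] at hq
      refine mem_image.2 ⟨q.1, mem_univ _, ?_⟩
      rw [← hq]
    calc _ ≤ _ := card_le_card this
      _ ≤ #(univ : Finset (ZMod p)) := card_image_le
      _ = p := by rw [card_univ, ZMod.card]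
  · have : line p (Sum.inr c) ⊆ (univ : Finset (ZMod p)).image fun y => (c, y) := by
      intro q hq
      rw [mem_line_inr] at hq
      refine mem_image.2 ⟨q.2, mem_univ _, ?_⟩
      rw [← hq]
    calc _ ≤ _ := card_le_card this
      _ ≤ #(univ : Finset (ZMod p)) := card_image_le
      _ = p := by rw [card_univ, ZMod.card]

variable (k : ℕ)

/-- The traces of the non-vertical lines on the first `k` columns. -/
def tr (ab : ZMod p × ZMod p) : Finset (Fin k × ZMod p) :=
  univ.filter fun q => q.2 = ab.1 * ((q.1 : ℕ) : ZMod p) + ab.2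

theorem mem_tr (a b : ZMod p) (q : Fin k × ZMod p) :
    q ∈ tr p k (a, b) ↔ q.2 = a * ((q.1 : ℕ) : ZMod p) + b := by
  simp [tr]

theorem card_tr (ab : ZMod p × ZMod p) : #(tr p k ab) = k := by
  classical
  obtain ⟨a, b⟩ := ab
  have : tr p k (a, b) = (univ : Finset (Fin k)).image
      fun i : Fin k => (i, a * ((i : ℕ) : ZMod p) + b) := by
    ext ⟨i, y⟩
    rw [mem_tr]
    simp only [mem_image, mem_univ, true_and, Prod.mk.injEq]
    constructor
    · intro h
      exact ⟨i, rfl, h.symm⟩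
    · rintro ⟨i', rfl, rfl⟩
      rfl
  rw [this, card_image_of_injective, card_univ, Fintype.card_fin]
  intro i i' h
  exact (Prod.mk.inj h).1

theorem natCast_inj_of_lt {i j : ℕ} (hi : i < p) (hj : j < p) (h : (i : ZMod p) = (j : ZMod p)) :
    i = j := by
  have := (ZMod.natCast_eq_natCast_iff i j p).1 h
  exact Nat.ModEq.eq_of_lt_of_lt this hi hj

theorem card_tr_inter (hk : k ≤ p) (u v : ZMod p × ZMod p) (huv : u ≠ v) :
    #(tr p k u ∩ tr p k v) ≤ 1 := by
  classical
  obtain ⟨a, b⟩ := u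
  obtain ⟨a', b'⟩ := v
  rw [card_le_one]
  rintro ⟨i, y⟩ h1 ⟨j, z⟩ h2
  rw [mem_inter, mem_tr, mem_tr] at h1 h2
  simp only at h1 h2
  by_contra hne
  have hij : ((i : ℕ) : ZMod p) ≠ ((j : ℕ) : ZMod p) := by
    intro h
    apply hne
    have hi : (i : ℕ) = (j : ℕ) := natCast_inj_of_lt p (lt_of_lt_of_le i.2 hk)
      (lt_of_lt_of_le j.2 hk) h
    have hi' : i = j := Fin.ext hi
    rw [Prod.mk.injEq]
    refine ⟨hi', ?_⟩
    rw [h1.1, h2.1, hi']
  have h6 : (a - a') * (((i : ℕ) : ZMod p) - ((j : ℕ) : ZMod p)) = 0 := by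
    have e1 : a * ((i : ℕ) : ZMod p) + b = a' * ((i : ℕ) : ZMod p) + b' := by rw [← h1.1, ← h1.2]
    have e2 : a * ((j : ℕ) : ZMod p) + b = a' * ((j : ℕ) : ZMod p) + b' := by rw [← h2.1, ← h2.2]
    linear_combination e1 - e2
  have h7 : a = a' := by
    rcases mul_eq_zero.1 h6 with h | h
    · exact sub_eq_zero.1 h
    · exact absurd (sub_eq_zero.1 h) hij
  have h8 : b = b' := by
    have e1 : a * ((i : ℕ) : ZMod p) + b = a' * ((i : ℕ) : ZMod p) + b' := by rw [← h1.1, ← h1.2]
    rw [h7] at e1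
    exact add_left_cancel e1
  exact huv (by rw [h7, h8])

/-- The embedding of the first `k` columns. -/
def emb : Fin k × ZMod p → ZMod p × ZMod p := fun q => (((q.1 : ℕ) : ZMod p), q.2)

theorem emb_injective (hk : k ≤ p) : Function.Injective (emb p k) := by
  rintro ⟨i, y⟩ ⟨j, z⟩ h
  simp only [emb, Prod.mk.injEq] at h
  have hi : (i : ℕ) = (j : ℕ) := natCast_inj_of_lt p (lt_of_lt_of_le i.2 hk)
      (lt_of_lt_of_le j.2 hk) h.1
  rw [Prod.mk.injEq]
  exact ⟨Fin.ext hi, h.2⟩

/-- The reserved columns. -/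
def res : Finset (ZMod p × ZMod p) :=
  univ.filter fun q => ∃ i : Fin 3, q.1 = ((k + (i : ℕ) : ℕ) : ZMod p)

theorem res_card (hk : k + 3 ≤ p) : #(res p k) = 3 * p := by
  classical
  have : res p k = (univ : Finset (Fin 3 × ZMod p)).image
      fun q => (((k + (q.1 : ℕ) : ℕ) : ZMod p), q.2) := by
    ext ⟨x, y⟩
    simp only [res, mem_filter, mem_univ, true_and, mem_image, Prod.mk.injEq, Prod.exists]
    constructor
    · rintro ⟨i, hi⟩
      exact ⟨i, y, hi.symm, rfl⟩
    · rintro ⟨i, y', hi, -⟩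
      exact ⟨i, hi.symm⟩
  rw [this, card_image_of_injective, card_univ, Fintype.card_prod, Fintype.card_fin, ZMod.card]
  rintro ⟨i, y⟩ ⟨j, z⟩ h
  simp only [Prod.mk.injEq] at h
  have hi := i.2
  have hj := j.2
  have h3 : k + (i : ℕ) = k + (j : ℕ) := natCast_inj_of_lt p (by omega) (by omega) h.1
  rw [Prod.mk.injEq]
  exact ⟨Fin.ext (by omega), h.2⟩

theorem res_line (a b : ZMod p) : #(line p (Sum.inl (a, b)) ∩ res p k) ≤ 3 := by
  classical
  have : line p (Sum.inl (a, b)) ∩ res p k ⊆ (univ : Finset (Fin 3)).image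
      fun i : Fin 3 => (((k + (i : ℕ) : ℕ) : ZMod p), a * ((k + (i : ℕ) : ℕ) : ZMod p) + b) := by
    rintro ⟨x, y⟩ hq
    rw [mem_inter, mem_line_inl] at hq
    obtain ⟨h1, h2⟩ := hq
    simp only [res, mem_filter, mem_univ, true_and] at h2
    obtain ⟨i, hi⟩ := h2
    refine mem_image.2 ⟨i, mem_univ _, ?_⟩
    simp only at h1 hi
    rw [h1, hi]
  calc _ ≤ _ := card_le_card this
    _ ≤ #(univ : Finset (Fin 3)) := card_image_le
    _ = 3 := by simp

theorem emb_disjoint (hk : k + 3 ≤ p) (ω : Finset (Fin k × ZMod p)) :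
    Disjoint (ω.image (emb p k)) (res p k) := by
  classical
  rw [disjoint_left]
  intro q hq hq'
  obtain ⟨⟨i, y⟩, -, rfl⟩ := mem_image.1 hq
  simp only [res, mem_filter, mem_univ, true_and, emb] at hq'
  obtain ⟨j, hj⟩ := hq'
  have hi := i.2
  have hj' := j.2
  have := natCast_inj_of_lt p (by omega) (by omega) hj
  omega

theorem line_inter_emb (hk : k ≤ p) (a b : ZMod p) (ω : Finset (Fin k × ZMod p)) :
    #(line p (Sum.inl (a, b)) ∩ ω.image (emb p k)) = #(ω ∩ tr p k (a, b)) := by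
  classical
  symm
  refine card_bij (fun q _ => emb p k q) ?_ ?_ ?_
  · rintro ⟨i, y⟩ hq
    rw [mem_inter, mem_tr] at hq
    rw [mem_inter, mem_line_inl]
    exact ⟨hq.2, mem_image_of_mem _ hq.1⟩
  · intro q _ q' _ h
    exact emb_injective p k hk h
  · intro q hq
    rw [mem_inter, mem_image] at hq
    obtain ⟨hq1, ⟨q', hq', rfl⟩⟩ := hq
    rw [mem_line_inl] at hq1
    refine ⟨q', ?_, rfl⟩
    rw [mem_inter, mem_tr]
    exact ⟨hq', hq1⟩

/-- Main combinatorial step. -/
theorem plane_step {k : ℕ} (hk : k + 3 ≤ p) (n : ℕ) (hn : p < n) (ω : Finset (Fin k × ZMod p))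
    (h1 : #ω ≤ n) (h2 : n ≤ #ω + 3 * p) (Bd : ℝ)
    (hB : ∀ s, M (tr p k) ω s ≤ Bd) :
    ∃ H : Finset (Finset (Fin n)), H.IsPairwiseBalancedDesign ∧ (∀ e ∈ H, #e < n) ∧
      ∀ t : ℕ, ((#{e ∈ H | #e = t} : ℕ) : ℝ) ≤ 4 * Bd + p := by
  classical
  have hres := res_card p k hk
  obtain ⟨E, hE1, hE2⟩ := exists_subset_card_eq (s := res p k) (n := n - #ω) (by omega)
  set S : Finset (ZMod p × ZMod p) := ω.image (emb p k) ∪ E with hS
  have hdisj : Disjoint (ω.image (emb p k)) E :=
    (emb_disjoint p k hk ω).mono_right hE1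
  have hScard : #S = n := by
    rw [hS, card_union_of_disjoint hdisj, card_image_of_injective _ (emb_injective p k (by omega)),
      hE2]
    omega
  obtain ⟨H, hH1, hH2, hH3⟩ := exists_pbd (line p) (line_exists p) (line_unique p) S n hScard
  refine ⟨H, hH1, ?_, ?_⟩
  · intro e he
    obtain ⟨j, hj⟩ := hH2 e he
    rw [hj]
    calc _ ≤ #(line p j) := card_le_card inter_subset_left
      _ ≤ p := card_line p j
      _ < n := hn
  · intro t
    have h3 : #{e ∈ H | #e = t} ≤ #{j : (ZMod p × ZMod p) ⊕ ZMod p | #(line p j ∩ S) = t} := hH3 t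
    have h4 : ({j : (ZMod p × ZMod p) ⊕ ZMod p | #(line p j ∩ S) = t} :
        Finset ((ZMod p × ZMod p) ⊕ ZMod p)) ⊆
        ((range 4).biUnion fun c => ({ab : ZMod p × ZMod p | #(ω ∩ tr p k ab) = t - c} :
          Finset (ZMod p × ZMod p)).image Sum.inl) ∪ (univ : Finset (ZMod p)).image Sum.inr := by
      intro j hj
      rw [mem_filter] at hj
      have hj := hj.2
      rcases j with ⟨a, b⟩ | c
      · apply mem_union_left
        have h5 : #(line p (Sum.inl (a, b)) ∩ S) =
            #(ω ∩ tr p k (a, b)) + #(line p (Sum.inl (a, b)) ∩ E) := by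
          rw [hS, inter_union_distrib_left, card_union_of_disjoint,
            line_inter_emb p k (by omega)]
          exact (hdisj.mono inter_subset_right inter_subset_right)
        have h6 : #(line p (Sum.inl (a, b)) ∩ E) ≤ 3 :=
          (card_le_card (inter_subset_inter_left hE1)).trans (res_line p k a b)
        rw [mem_biUnion]
        refine ⟨#(line p (Sum.inl (a, b)) ∩ E), mem_range.2 (by omega), ?_⟩
        refine mem_image_of_mem _ (mem_filter.2 ⟨mem_univ _, ?_⟩)
        omega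
      · apply mem_union_right
        exact mem_image_of_mem _ (mem_univ _)
    have h7 : #{j : (ZMod p × ZMod p) ⊕ ZMod p | #(line p j ∩ S) = t} ≤
        (∑ c ∈ range 4, #{ab : ZMod p × ZMod p | #(ω ∩ tr p k ab) = t - c}) + p := by
      calc _ ≤ _ := card_le_card h4
        _ ≤ _ := card_union_le _ _
        _ ≤ _ := by
          apply add_le_add
          · refine card_biUnion_le.trans (sum_le_sum fun c _ => card_image_le)
          · calc _ ≤ #(univ : Finset (ZMod p)) := card_image_le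
              _ = p := by rw [card_univ, ZMod.card]
    have h8 : ((#{e ∈ H | #e = t} : ℕ) : ℝ) ≤
        (∑ c ∈ range 4, M (tr p k) ω (t - c)) + p := by
      have := h3.trans h7
      unfold M
      exact_mod_cast this
    calc _ ≤ _ := h8
      _ ≤ (∑ c ∈ range 4, Bd) + p := by
        gcongr with c _
        exact hB _
      _ = 4 * Bd + p := by
        rw [sum_const, card_range, nsmul_eq_mul]
        norm_num

end plane

end Pool.Agent.Helper63.PBD
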