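import Mathlib
import Pool.Agent.Helper63.PBD.Geo

set_option autoImplicit false

namespace Pool.Agent.Helper63.PBD

open Finset

theorem bound1 (x P c : ℝ) (hx : 0 < x) (_hP0 : 0 ≤ P) (hP : P ≤ 9 * x ^ 4) (hc0 : 0 ≤ c)
    (hc : c ≤ 2 / x) : P * c ≤ 18 * x ^ 3 := by
  calc P * c ≤ (9 * x ^ 4) * (2 / x) := by gcongr
    _ = 18 * x ^ 3 := by
        field_simp
        ring

theorem bound2 (x P c R : ℝ) (hx : 0 < x) (hx1 : 1 ≤ x) (hP0 : 0 ≤ P) (hP : P ≤ 9 * x ^ 4)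
    (hc0 : 0 < c) (hc : c ≤ 2 / x) (hR : x ^ 2 ≤ 2 * R) :
    Real.sqrt (2 * (P + P ^ 2 * (c / (2 * R)))) ≤ 19 * x ^ 3 := by
  rw [Real.sqrt_le_left (by positivity)]
  have hx2 : 0 < x ^ 2 := by positivity
  have h1 : c / (2 * R) ≤ (2 / x) / x ^ 2 := by
    apply div_le_div₀ (by positivity) hc hx2 hR
  have h0 : 0 ≤ c / (2 * R) := div_nonneg hc0.le (by linarith)
  have h2 : P ^ 2 * (c / (2 * R)) ≤ 162 * x ^ 5 := by
    calc P ^ 2 * (c / (2 * R)) ≤ (9 * x ^ 4) ^ 2 * ((2 / x) / x ^ 2) := by gcongr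
      _ = 162 * x ^ 5 := by
          field_simp
          ring
  have h3 : x ^ 4 ≤ x ^ 5 := by
    have h4 : 0 ≤ x ^ 4 := by positivity
    nlinarith
  have h5 : x ^ 5 ≤ x ^ 6 := by
    have h4 : 0 ≤ x ^ 5 := by positivity
    nlinarith
  have h6 : 0 ≤ x ^ 6 := by positivity
  calc 2 * (P + P ^ 2 * (c / (2 * R)))
      ≤ 2 * (9 * x ^ 4 + 162 * x ^ 5) := by linarith
    _ ≤ (19 * x ^ 3) ^ 2 := by nlinarith

theorem numeric (n : ℕ) (hn : 1000 ≤ n) (x : ℝ) (hx0 : 0 < x) (hx : x ^ 4 = n) :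
    ∃ H : Finset (Finset (Fin n)), H.IsPairwiseBalancedDesign ∧ (∀ e ∈ H, #e < n) ∧
      ∀ t : ℕ, ((#{e ∈ H | #e = t} : ℕ) : ℝ) ≤ 151 * x ^ 3 := by
  classical
  have hnr : (1000 : ℝ) ≤ n := by exact_mod_cast hn
  -- x^2 ≥ 30
  have hx2 : (30 : ℝ) ≤ x ^ 2 := by
    by_contra h
    push Not at h
    have : x ^ 4 < 900 := by
      have h0 : 0 ≤ x ^ 2 := by positivity
      calc x ^ 4 = x ^ 2 * x ^ 2 := by ring
        _ < 900 := by nlinarith
    linarith
  have hx1 : 1 ≤ x := by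
    by_contra h
    push Not at h
    nlinarith
  set n0 := Nat.sqrt (2 * n) + 1 with hn0
  obtain ⟨p, hp, hp1, hp2⟩ := Nat.exists_prime_lt_and_le_two_mul n0 (by omega)
  have : Fact p.Prime := ⟨hp⟩
  have hppos : 0 < p := hp.pos
  have hsq : (Nat.sqrt (2 * n)) ^ 2 ≤ 2 * n := Nat.sqrt_le' _
  have hsq2 : 2 * n < n0 ^ 2 := by
    have := Nat.lt_succ_sqrt' (2 * n)
    simpa [hn0] using this
  -- p ≤ 3 x^2
  have hp3 : (p : ℝ) ≤ 3 * x ^ 2 := by
    have h1 : ((Nat.sqrt (2 * n) : ℕ) : ℝ) ^ 2 ≤ 2 * x ^ 4 := by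
      rw [hx]
      exact_mod_cast hsq
    have h2 : ((Nat.sqrt (2 * n) : ℕ) : ℝ) ≤ 1.4143 * x ^ 2 := by
      apply le_of_sq_le_sq _ (by positivity)
      calc _ ≤ 2 * x ^ 4 := h1
        _ ≤ (1.4143 * x ^ 2) ^ 2 := by
          have : 0 ≤ x ^ 4 := by positivity
          nlinarith
    have h3 : (p : ℝ) ≤ 2 * (((Nat.sqrt (2 * n) : ℕ) : ℝ) + 1) := by
      have : p ≤ 2 * (Nat.sqrt (2 * n) + 1) := hp2
      exact_mod_cast this
    nlinarith
  set q := n / p with hq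
  have hq1 : p * q ≤ n := Nat.mul_div_le n p
  have hq2 : n < p * q + p := by
    have := Nat.lt_mul_div_succ n hppos
    rw [← hq] at this
    calc n < p * (q + 1) := this
      _ = p * q + p := by ring
  have hq1r : (p : ℝ) * q ≤ n := by exact_mod_cast hq1
  have hq2r : (n : ℝ) < p * q + p := by exact_mod_cast hq2
  have hqlow : x ^ 2 / 3 < (q : ℝ) + 1 := by
    have h1 : x ^ 4 < 3 * x ^ 2 * (q + 1) := by
      rw [hx]
      calc (n : ℝ) < p * (q + 1) := by linarith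
        _ ≤ 3 * x ^ 2 * (q + 1) := by gcongr
    have h2 : 0 < x ^ 2 := by positivity
    by_contra h
    push Not at h
    have : x ^ 2 * ((q : ℝ) + 1) ≤ x ^ 2 * (x ^ 2 / 3) := by gcongr
    nlinarith
  have hq9 : 9 < q := by
    have : (9 : ℝ) < q := by linarith
    exact_mod_cast this
  obtain ⟨m, hm⟩ : ∃ m, q = m + 1 := ⟨q - 1, by omega⟩
  have hm1 : 8 < m := by omega
  have hkx : x ^ 2 / 2 ≤ 2 * (m : ℝ) := by
    have : (q : ℝ) = m + 1 := by rw [hm]; push_cast; ring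
    rw [this] at hqlow
    linarith
  have hkp : 2 * m + 3 ≤ p := by
    have h1 : 2 * (p * q) ≤ 2 * n := by omega
    have h2 : 2 * (p * q) < n0 ^ 2 := by omega
    have h3 : n0 + 1 ≤ p := hp1
    have h4 : n0 ^ 2 ≤ p * (p - 1) := by
      have h5 : n0 ≤ p - 1 := by omega
      have h6 : n0 ≤ p := by omega
      calc n0 ^ 2 = n0 * n0 := by ring
        _ ≤ p * (p - 1) := Nat.mul_le_mul h6 h5
    have h5 : p * (2 * q) < p * (p - 1) := by
      calc p * (2 * q) = 2 * (p * q) := by ring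
        _ < p * (p - 1) := by omega
    have h6 : 2 * q < p - 1 := Nat.lt_of_mul_lt_mul_left h5
    omega
  obtain ⟨r, hr⟩ : ∃ r, 2 * m = r + 1 := ⟨2 * m - 1, by omega⟩
  have hpn : p < n := by
    calc p < p * 2 := by omega
      _ ≤ p * q := Nat.mul_le_mul_left _ (by omega)
      _ ≤ n := hq1
  obtain ⟨ω, hω1, hω2⟩ := exists_good (α := Fin (2 * m) × ZMod p) (ι := ZMod p × ZMod p)
    (tr p (2 * m)) (r := r) (fun i => by rw [card_tr, hr])
    (fun i j hij => card_tr_inter p (2 * m) (by omega) i j hij)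
    (by rw [Fintype.card_prod, ZMod.card]; positivity)
    (by
      rw [Fintype.card_prod, ZMod.card, Fintype.card_fin]
      have : 0 < 2 * m := by omega
      positivity)
  have hcα : ((Fintype.card (Fin (2 * m) × ZMod p) : ℕ) : ℝ) = 2 * m * p := by
    rw [Fintype.card_prod, ZMod.card, Fintype.card_fin]
    push_cast
    ring
  have hcι : ((Fintype.card (ZMod p × ZMod p) : ℕ) : ℝ) = (p : ℝ) ^ 2 := by
    rw [Fintype.card_prod, ZMod.card]
    push_cast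
    ring
  rw [hcα] at hω1
  rw [hcι] at hω2
  have hmp : (m : ℝ) ≤ p := by
    have : m ≤ p := by omega
    exact_mod_cast this
  have hp0 : (0 : ℝ) < p := by exact_mod_cast hppos
  have hdev : |(#ω : ℝ) - (m : ℝ) * (p : ℝ)| ≤ (p : ℝ) := by
    apply abs_le_of_sq_le_sq _ hp0.le
    have e1 : ((#ω : ℝ) - (m : ℝ) * (p : ℝ)) ^ 2 =
        ((#ω : ℝ) - (2 * (m : ℝ) * (p : ℝ)) / 2) ^ 2 := by ring
    rw [e1]
    refine hω1.trans ?_
    nlinarith
  rw [abs_le] at hdev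
  have hqr : (q : ℝ) = m + 1 := by rw [hm]; push_cast; ring
  have hS1 : #ω ≤ n := by
    have : (#ω : ℝ) ≤ n := by
      rw [hqr] at hq1r
      nlinarith [hdev.2]
    exact_mod_cast this
  have hS2 : n ≤ #ω + 3 * p := by
    have : (n : ℝ) ≤ #ω + 3 * p := by
      rw [hqr] at hq2r
      nlinarith [hdev.1]
    exact_mod_cast this
  -- bound on b m and b r
  have hbm : b m * x ≤ 2 := by
    have h1 := b_sq_le m
    have h2 := b_pos m
    apply le_of_sq_le_sq _ (by norm_num)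
    have h3 : (b m) ^ 2 * (x ^ 2 / 2) ≤ 1 := by
      calc (b m) ^ 2 * (x ^ 2 / 2) ≤ (b m) ^ 2 * (2 * m + 1) := by
            gcongr
            linarith
        _ ≤ 1 := h1
    nlinarith
  have hbr : b r * x ≤ 2 := by
    have h1 := b_sq_le r
    have h2 := b_pos r
    apply le_of_sq_le_sq _ (by norm_num)
    have hrr : (r : ℝ) + 1 = 2 * m := by
      have : ((2 * m : ℕ) : ℝ) = ((r + 1 : ℕ) : ℝ) := by rw [hr]
      push_cast at this
      linarith
    have h3 : (b r) ^ 2 * (x ^ 2 / 2) ≤ 1 := by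
      calc (b r) ^ 2 * (x ^ 2 / 2) ≤ (b r) ^ 2 * (2 * r + 1) := by
            gcongr
            have : (1 : ℝ) ≤ r := by
              have : 1 ≤ r := by omega
              exact_mod_cast this
            linarith
        _ ≤ 1 := h1
    nlinarith
  have hbm' : b m ≤ 2 / x := by
    rw [le_div_iff₀ hx0]
    exact hbm
  have hbr' : b r ≤ 2 / x := by
    rw [le_div_iff₀ hx0]
    exact hbr
  have hp4 : (p : ℝ) ^ 2 ≤ 9 * x ^ 4 := by
    calc (p : ℝ) ^ 2 ≤ (3 * x ^ 2) ^ 2 := by gcongr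
      _ = 9 * x ^ 4 := by ring
  have hBd : ∀ s, M (tr p (2 * m)) ω s ≤ 37 * x ^ 3 := by
    intro s
    refine (hω2 s).trans ?_
    have e1 : (p : ℝ) ^ 2 * (((r + 1).choose s : ℝ) / 2 ^ (r + 1)) ≤ 18 * x ^ 3 := by
      rw [← hr]
      have h1 := choose_le m s
      have h2 : (((2 * m).choose s : ℝ) / 2 ^ (2 * m)) ≤ b m := by
        rw [div_le_iff₀ (by positivity)]
        linarith
      exact bound1 x _ _ hx0 (by positivity) hp4 (by positivity) (h2.trans hbm')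
    have e2 : Real.sqrt (2 * ((p : ℝ) ^ 2 + ((p : ℝ) ^ 2) ^ 2 * (b r / (2 * (r + 1))))) ≤
        19 * x ^ 3 := by
      have hrr : (r : ℝ) + 1 = 2 * m := by
        have : ((2 * m : ℕ) : ℝ) = ((r + 1 : ℕ) : ℝ) := by rw [hr]
        push_cast at this
        linarith
      exact bound2 x _ _ _ hx0 hx1 (by positivity) hp4 (b_pos r) hbr' (by rw [hrr]; linarith)
    linarith
  obtain ⟨H, hH1, hH2, hH3⟩ := plane_step p hkp n hpn ω hS1 hS2 (37 * x ^ 3) hBd
  refine ⟨H, hH1, hH2, fun t => (hH3 t).trans ?_⟩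
  have h7 : x ^ 2 ≤ x ^ 3 := pow_le_pow_right₀ hx1 (by norm_num)
  linarith

end Pool.Agent.Helper63.PBD
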